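import Mathlib

/-!
# Graphs without induced four-cycles have few maximal cliques
-/

namespace Pool.Agent.C4F

theorem exists_family_aux {V : Type*} [DecidableEq V] (G : SimpleGraph V)
    (h : ∀ x y u w : V, x ≠ y → ¬ G.Adj x y → u ≠ w → G.Adj x u → G.Adj x w → G.Adj y u →
      G.Adj y w → G.Adj u w) (U : Finset V) :
    ∃ F : Finset (Finset V), F.card ≤ U.card ^ 2 + 1 ∧
      (∀ K ∈ F, G.IsClique (K : Set V) ∧ K ⊆ U) ∧
      ∀ Q : Finset V, G.IsClique (Q : Set V) → Q ⊆ U → ∃ K ∈ F, Q ⊆ K := by
  classical
  induction U using Finset.induction_on with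
  | empty =>
    refine ⟨{∅}, by simp, by simp, ?_⟩
    intro Q _ hQ
    exact ⟨∅, by simp, hQ⟩
  | @insert v U hv ih =>
    obtain ⟨F, h1, h2, h3⟩ := ih
    let e : Finset V → Finset V := fun K =>
      if G.IsClique ((insert v K : Finset V) : Set V) then insert v K else K
    let g : V → Finset V := fun u => insert v (U.filter (fun z => G.Adj u z ∧ G.Adj v z))
    refine ⟨F.image e ∪ (U.filter (fun u => ¬ G.Adj v u)).image g, ?_, ?_, ?_⟩
    · have h4 := Finset.card_union_le (F.image e) ((U.filter (fun u => ¬ G.Adj v u)).image g)
      have h5 : (F.image e).card ≤ F.card := Finset.card_image_le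
      have h6 : ((U.filter (fun u => ¬ G.Adj v u)).image g).card ≤ U.card :=
        Finset.card_image_le.trans (Finset.card_filter_le _ _)
      rw [Finset.card_insert_of_notMem hv]
      nlinarith
    · intro K hK
      rcases Finset.mem_union.1 hK with hK | hK
      · obtain ⟨K, hKF, rfl⟩ := Finset.mem_image.1 hK
        obtain ⟨h4, h5⟩ := h2 K hKF
        by_cases hc : G.IsClique ((insert v K : Finset V) : Set V)
        · have : e K = insert v K := if_pos hc
          rw [this]
          exact ⟨hc, Finset.insert_subset_insert v h5⟩
        · have : e K = K := if_neg hc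
          rw [this]
          exact ⟨h4, h5.trans (Finset.subset_insert v U)⟩
      · obtain ⟨u, hu, rfl⟩ := Finset.mem_image.1 hK
        obtain ⟨huU, huv⟩ := Finset.mem_filter.1 hu
        have hvu : v ≠ u := fun hh => hv (hh ▸ huU)
        refine ⟨?_, Finset.insert_subset_insert v (Finset.filter_subset _ _)⟩
        intro a ha b hb hab
        have ha' : a ∈ g u := ha
        have hb' : b ∈ g u := hb
        simp only [g, Finset.mem_insert, Finset.mem_filter] at ha' hb'
        rcases ha' with rfl | ⟨_, ha1, ha2⟩
        · rcases hb' with rfl | ⟨_, hb1, hb2⟩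
          · exact absurd rfl hab
          · exact hb2
        · rcases hb' with rfl | ⟨_, hb1, hb2⟩
          · exact ha2.symm
          · exact h v u a b hvu huv hab ha2 hb2 ha1 hb1
    · intro Q hQ hQU
      by_cases hvQ : v ∈ Q
      · have hQ' : G.IsClique ((Q.erase v : Finset V) : Set V) :=
          hQ.subset (by exact_mod_cast Finset.erase_subset v Q)
        have hQU' : Q.erase v ⊆ U := by
          intro z hz
          obtain ⟨hz1, hz2⟩ := Finset.mem_erase.1 hz
          rcases Finset.mem_insert.1 (hQU hz2) with hz3 | hz3
          · exact absurd hz3 hz1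
          · exact hz3
        obtain ⟨K, hK, hQK⟩ := h3 _ hQ' hQU'
        obtain ⟨hKc, hKU⟩ := h2 K hK
        by_cases hc : G.IsClique ((insert v K : Finset V) : Set V)
        · refine ⟨insert v K, ?_, ?_⟩
          · apply Finset.mem_union_left
            exact Finset.mem_image.2 ⟨K, hK, if_pos hc⟩
          · intro z hz
            by_cases hzv : z = v
            · rw [hzv]; exact Finset.mem_insert_self v K
            · exact Finset.mem_insert_of_mem (hQK (Finset.mem_erase.2 ⟨hzv, hz⟩))
        · have hex : ∃ u ∈ K, ¬ G.Adj v u := by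
            by_contra hcon
            push Not at hcon
            apply hc
            intro a ha b hb hab
            have ha' : a ∈ insert v K := ha
            have hb' : b ∈ insert v K := hb
            rcases Finset.mem_insert.1 ha' with ha2 | ha2
            · rcases Finset.mem_insert.1 hb' with hb2 | hb2
              · exact absurd (ha2.trans hb2.symm) hab
              · rw [ha2]; exact hcon b hb2
            · rcases Finset.mem_insert.1 hb' with hb2 | hb2
              · rw [hb2]; exact (hcon a ha2).symm
              · exact hKc ha2 hb2 hab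
          obtain ⟨u, huK, huv⟩ := hex
          refine ⟨g u, ?_, ?_⟩
          · apply Finset.mem_union_right
            exact Finset.mem_image.2 ⟨u, Finset.mem_filter.2 ⟨hKU huK, huv⟩, rfl⟩
          · intro z hz
            by_cases hzv : z = v
            · rw [hzv]; exact Finset.mem_insert_self v _
            · have hzE : z ∈ Q.erase v := Finset.mem_erase.2 ⟨hzv, hz⟩
              have hvz : G.Adj v z := hQ hvQ hz (Ne.symm hzv)
              have hzu : u ≠ z := fun hh => huv (hh ▸ hvz)
              exact Finset.mem_insert_of_mem (Finset.mem_filter.2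
                ⟨hQU' hzE, hKc huK (hQK hzE) hzu, hvz⟩)
      · have hQU' : Q ⊆ U := by
          intro z hz
          rcases Finset.mem_insert.1 (hQU hz) with hz3 | hz3
          · exact absurd (hz3 ▸ hz) hvQ
          · exact hz3
        obtain ⟨K, hK, hQK⟩ := h3 Q hQ hQU'
        refine ⟨e K, Finset.mem_union_left _ (Finset.mem_image_of_mem e hK), hQK.trans ?_⟩
        by_cases hc : G.IsClique ((insert v K : Finset V) : Set V)
        · have : e K = insert v K := if_pos hc
          rw [this]; exact Finset.subset_insert v K
        · have : e K = K := if_neg hc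
          rw [this]

theorem exists_family {V : Type*} [Fintype V] [DecidableEq V] (G : SimpleGraph V)
    (h : ∀ x y u w : V, x ≠ y → ¬ G.Adj x y → u ≠ w → G.Adj x u → G.Adj x w → G.Adj y u →
      G.Adj y w → G.Adj u w) :
    ∃ F : Finset (Finset V), F.card ≤ Fintype.card V ^ 2 + 1 ∧
      (∀ K ∈ F, G.IsClique (K : Set V)) ∧
      ∀ Q : Finset V, G.IsClique (Q : Set V) → ∃ K ∈ F, Q ⊆ K := by
  obtain ⟨F, h1, h2, h3⟩ := exists_family_aux G h Finset.univ
  exact ⟨F, by simpa using h1, fun K hK => (h2 K hK).1, fun Q hQ => h3 Q hQ (Finset.subset_univ Q)⟩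

end Pool.Agent.C4F
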