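import Pool.Agent.C4F.Scale
import Pool.Agent.C4B.Main
import Pool.Agent.C4W.Covers

/-!
# The fractional clique cover number and graphs of bounded clique number
-/

set_option autoImplicit false
set_option linter.unusedSectionVars false

open Finset Filter

namespace Pool.Agent.C4F

open Pool.Agent.C4B

/-- `n ≤ C α ^ b ω` for all graphs without induced 4-cycle -/
def UnitExp (b : ℝ) : Prop := ∃ C : ℝ, 0 < C ∧ ∀ (V : Type) [Fintype V] (G : SimpleGraph V),
  IsEmpty (SimpleGraph.cycleGraph 4 ↪g G) →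
    (Fintype.card V : ℝ) ≤ C * (G.indepNum : ℝ) ^ b * G.cliqueNum

/-- the fractional clique cover number of graphs without induced 4-cycle is at most `C α ^ b` -/
def CovExp (b : ℝ) : Prop := ∃ C : ℝ, ∀ (V : Type) [Fintype V] [DecidableEq V] (G : SimpleGraph V),
  IsEmpty (SimpleGraph.cycleGraph 4 ↪g G) →
    ∃ (F : Finset (Finset V)) (y : Finset V → ℝ), (∀ K ∈ F, G.IsClique (K : Set V) ∧ 0 ≤ y K) ∧
      (∀ v, 1 ≤ ∑ K ∈ F with v ∈ K, y K) ∧ ∑ K ∈ F, y K ≤ C * (G.indepNum : ℝ) ^ b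

lemma indepNum_pos {V : Type*} [Fintype V] (G : SimpleGraph V) (v : V) : 1 ≤ G.indepNum := by
  classical
  have h : G.IsIndepSet (({v} : Finset V) : Set V) := by
    intro a ha b hb hab
    simp only [coe_singleton, Set.mem_singleton_iff] at ha hb
    exact absurd (ha.trans hb.symm) hab
  have := h.card_le_indepNum
  rwa [card_singleton] at this

lemma cliqueNum_pos {V : Type*} [Fintype V] (G : SimpleGraph V) (v : V) : 1 ≤ G.cliqueNum := by
  classical
  have h : G.IsClique (({v} : Finset V) : Set V) := by simp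
  have := h.card_le_cliqueNum
  rwa [card_singleton] at this

/-- the case of a clique number polynomial in `m` -/
theorem poly_case {g η : ℝ} (hg : 0 < g) (hB : BddExp g) (hη : 0 < η) :
    ∃ C : ℝ, 0 < C ∧ ∀ m : ℕ, 1 ≤ m → ∀ (V : Type) [Fintype V] (G : SimpleGraph V),
      IsEmpty (SimpleGraph.cycleGraph 4 ↪g G) → G.indepNum ≤ m →
      (G.cliqueNum : ℝ) ≤ 2 * ((m : ℝ) + 12) ^ 8 →
        (Fintype.card V : ℝ) ≤ C * (m : ℝ) ^ (1 / g + η) * G.cliqueNum := by
  classical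
  obtain ⟨k, hk⟩ := exists_nat_gt (21 / η)
  have hkη : 21 ≤ η * k := by
    rw [div_lt_iff₀ hη] at hk
    linarith
  obtain ⟨n0, hn0⟩ := hB k
  set m1 : ℝ := 2 * (k + 1) * (4 * 13 ^ 16) with hm1
  have hm1pos : 0 < m1 := by positivity
  refine ⟨4 * (n0 + 1) + m1 ^ 2, by positivity, ?_⟩
  intro m hm V _ G hG hα hω
  have hmR : (1 : ℝ) ≤ m := by exact_mod_cast hm
  have hm0 : (0 : ℝ) < m := by linarith
  have hpow1 : 1 ≤ (m : ℝ) ^ (1 / g + η) := Real.one_le_rpow hmR (by positivity)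
  have hω0 : (0 : ℝ) ≤ G.cliqueNum := Nat.cast_nonneg _
  have hwag : (Fintype.card V : ℝ) ≤ (m : ℝ) ^ 2 * G.cliqueNum := by
    have h1 : (Fintype.card V : ℝ) ≤ (G.indepNum : ℝ) ^ 2 * G.cliqueNum := by
      exact_mod_cast wagon_card G hG
    have h2 : (G.indepNum : ℝ) ≤ m := by exact_mod_cast hα
    refine h1.trans ?_
    gcongr
  by_cases hsmall : (m : ℝ) < m1
  · calc (Fintype.card V : ℝ) ≤ (m : ℝ) ^ 2 * G.cliqueNum := hwag
      _ ≤ (m1 ^ 2 * 1) * G.cliqueNum := by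
          rw [mul_one]
          gcongr
      _ ≤ ((4 * (n0 + 1) + m1 ^ 2) * (m : ℝ) ^ (1 / g + η)) * G.cliqueNum := by
          refine mul_le_mul_of_nonneg_right ?_ hω0
          refine mul_le_mul ?_ hpow1 zero_le_one (by positivity)
          have : (0 : ℝ) ≤ 4 * (n0 + 1) := by positivity
          linarith
  · push Not at hsmall
    rcases isEmpty_or_nonempty V with hV | ⟨⟨v⟩⟩
    · have : Fintype.card V = 0 := Fintype.card_eq_zero
      rw [this]
      push_cast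
      positivity
    have hn1 : (1 : ℝ) ≤ Fintype.card V := by
      have : 0 < Fintype.card V := Fintype.card_pos_iff.2 ⟨v⟩
      exact_mod_cast this
    have hω1 : (1 : ℝ) ≤ G.cliqueNum := by exact_mod_cast cliqueNum_pos G v
    set n : ℝ := (Fintype.card V : ℝ) with hn
    set ω : ℝ := (G.cliqueNum : ℝ) with hωdef
    set D : ℕ := ⌈(m : ℝ) ^ η⌉₊ with hD
    have hDp : 1 ≤ (m : ℝ) ^ η := Real.one_le_rpow hmR hη.le
    have hD1 : (m : ℝ) ^ η ≤ D := Nat.le_ceil _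
    have hD2 : (D : ℝ) ≤ 2 * (m : ℝ) ^ η := by
      have := Nat.ceil_lt_add_one (show 0 ≤ (m : ℝ) ^ η by positivity)
      rw [← hD] at this
      linarith
    have hD0 : (0 : ℝ) < D := by linarith
    have hN0 : 0 < G.cliqueNum * D := by
      have h1 : (0 : ℝ) < ((G.cliqueNum * D : ℕ) : ℝ) := by push_cast; positivity
      exact_mod_cast h1
    obtain ⟨S, hS1, hS2⟩ := finite_form G hG k (G.cliqueNum * D) hN0
    have hS3 : n * (ω * D) ^ k ≤ #S * (ω * D) ^ (k + 1) + (k + 1) * n ^ 3 * ω ^ k := by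
      have : ((Fintype.card V * (G.cliqueNum * D) ^ k : ℕ) : ℝ) ≤
          ((#S * (G.cliqueNum * D) ^ (k + 1) +
            (k + 1) * Fintype.card V ^ 3 * G.cliqueNum ^ k : ℕ) : ℝ) := by exact_mod_cast hS2
      push_cast at this
      exact this
    -- the error term
    have hn2 : n ^ 2 ≤ 4 * 13 ^ 16 * (m : ℝ) ^ 20 := by
      have h1 : (m : ℝ) + 12 ≤ 13 * m := by linarith
      have h2 : ((m : ℝ) + 12) ^ 8 ≤ (13 * m) ^ 8 := pow_le_pow_left₀ (by linarith) h1 8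
      have h3 : n ≤ (m : ℝ) ^ 2 * (2 * (13 * m) ^ 8) := by
        calc n ≤ (m : ℝ) ^ 2 * ω := hwag
          _ ≤ (m : ℝ) ^ 2 * (2 * (13 * m) ^ 8) := by
              refine mul_le_mul_of_nonneg_left ?_ (by positivity)
              linarith
      calc n ^ 2 ≤ ((m : ℝ) ^ 2 * (2 * (13 * m) ^ 8)) ^ 2 := pow_le_pow_left₀ (by linarith) h3 2
        _ = 4 * 13 ^ 16 * (m : ℝ) ^ 20 := by ring
    have hDk : (m : ℝ) ^ 21 ≤ (D : ℝ) ^ k := by
      calc (m : ℝ) ^ 21 = (m : ℝ) ^ (21 : ℝ) := by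
            rw [← Real.rpow_natCast]; norm_num
        _ ≤ (m : ℝ) ^ (η * k) := Real.rpow_le_rpow_of_exponent_le hmR hkη
        _ = ((m : ℝ) ^ η) ^ k := by rw [Real.rpow_mul hm0.le, Real.rpow_natCast]
        _ ≤ (D : ℝ) ^ k := pow_le_pow_left₀ (by positivity) hD1 k
    have herr : (k + 1) * n ^ 3 * ω ^ k ≤ n / 2 * (ω * D) ^ k := by
      have h1 : (k + 1) * n ^ 2 ≤ (m : ℝ) ^ 21 / 2 := by
        have h2 : (0 : ℝ) ≤ (m : ℝ) ^ 20 := by positivity
        calc (k + 1) * n ^ 2 ≤ (k + 1) * (4 * 13 ^ 16 * (m : ℝ) ^ 20) := by gcongr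
          _ = m1 * (m : ℝ) ^ 20 / 2 := by rw [hm1]; ring
          _ ≤ m * (m : ℝ) ^ 20 / 2 := by
              have := mul_le_mul_of_nonneg_right hsmall h2
              linarith
          _ = (m : ℝ) ^ 21 / 2 := by ring
      have h3 : (k + 1) * n ^ 2 ≤ (D : ℝ) ^ k / 2 := by linarith
      calc (k + 1) * n ^ 3 * ω ^ k = ((k + 1) * n ^ 2) * (n * ω ^ k) := by ring
        _ ≤ ((D : ℝ) ^ k / 2) * (n * ω ^ k) := mul_le_mul_of_nonneg_right h3 (by positivity)
        _ = n / 2 * (ω * D) ^ k := by rw [mul_pow]; ring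
    have hP : 0 < (ω * D) ^ k := by positivity
    have hS4 : n / 2 ≤ #S * (ω * D) := by
      have h1 : n / 2 * (ω * D) ^ k ≤ (#S * (ω * D)) * (ω * D) ^ k := by
        have e : (#S : ℝ) * (ω * D) ^ (k + 1) = (#S * (ω * D)) * (ω * D) ^ k := by ring
        linarith
      exact le_of_mul_le_mul_right h1 hP
    have hSm : (#S : ℝ) ≤ (n0 + 1) * (m : ℝ) ^ (1 / g) := by
      have hp : 1 ≤ (m : ℝ) ^ (1 / g) := Real.one_le_rpow hmR (by positivity)
      have hn00 : (0 : ℝ) ≤ n0 := Nat.cast_nonneg _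
      by_cases hc : n0 ≤ #S
      · have h1 := hn0 {x // x ∈ S} (sub G S) (by rw [Fintype.card_coe]; exact hc)
          (sub_free G hG S) hS1
        rw [Fintype.card_coe] at h1
        have h2 : ((sub G S).indepNum : ℝ) ≤ m := by
          exact_mod_cast (sub_indepNum G S).trans hα
        have h3 : ((#S : ℝ) ^ g) ^ (1 / g) ≤ (m : ℝ) ^ (1 / g) :=
          Real.rpow_le_rpow (by positivity) (h1.trans h2) (by positivity)
        rw [← Real.rpow_mul (Nat.cast_nonneg _), mul_one_div_cancel hg.ne', Real.rpow_one] at h3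
        nlinarith
      · push Not at hc
        have h1 : (#S : ℝ) ≤ n0 := by exact_mod_cast hc.le
        nlinarith
    have hfin : n ≤ 4 * (n0 + 1) * (m : ℝ) ^ (1 / g + η) * ω := by
      rw [Real.rpow_add hm0]
      have hn00 : (0 : ℝ) ≤ n0 := Nat.cast_nonneg _
      calc n ≤ 2 * (#S * (ω * D)) := by linarith
        _ ≤ 2 * (((n0 + 1) * (m : ℝ) ^ (1 / g)) * (ω * (2 * (m : ℝ) ^ η))) := by gcongr
        _ = 4 * (n0 + 1) * ((m : ℝ) ^ (1 / g) * (m : ℝ) ^ η) * ω := by ring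
    refine hfin.trans ?_
    have h5 : (0 : ℝ) ≤ m1 ^ 2 * ((m : ℝ) ^ (1 / g + η) * ω) := by positivity
    nlinarith

theorem unit_of_bdd {g b : ℝ} (hg : 0 < g) (hB : BddExp g) (hb : 1 / g < b) : UnitExp b := by
  classical
  obtain ⟨C, hC, h⟩ := poly_case hg hB (show 0 < b - 1 / g by linarith)
  rw [show 1 / g + (b - 1 / g) = b by ring] at h
  refine ⟨2 * C, by positivity, ?_⟩
  intro V _ G hG
  rcases isEmpty_or_nonempty V with hV | ⟨⟨v⟩⟩
  · have : Fintype.card V = 0 := Fintype.card_eq_zero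
    rw [this]
    push_cast
    positivity
  have h1 := scale (m := G.indepNum) (T := C * (G.indepNum : ℝ) ^ b) (by positivity)
    (fun V' _ G' hG' hα' hω' => h G.indepNum (indepNum_pos G v) V' G' hG' hα' hω') V G hG le_rfl
  calc (Fintype.card V : ℝ) ≤ 2 * (C * (G.indepNum : ℝ) ^ b) * G.cliqueNum := h1
    _ = 2 * C * (G.indepNum : ℝ) ^ b * G.cliqueNum := by ring

/-- from unit weights to all weights -/
theorem weight_gen {V : Type} [Fintype V] (G : SimpleGraph V) {D : ℝ} (hD : 0 ≤ D)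
    (H : ∀ m : V → ℕ, (∀ v, 0 < m v) → (∑ v, (m v : ℝ)) ≤ D * (C4W.blow G m).cliqueNum) (w : V → ℝ)
    (hw : ∀ v, 0 ≤ w v) :
    ∃ K : Finset V, G.IsClique (K : Set V) ∧ ∑ v, w v ≤ D * ∑ v ∈ K, w v := by
  classical
  obtain ⟨K, hK, hmax⟩ := exists_max_image ((univ : Finset V).powerset.filter
    (fun K : Finset V => G.IsClique (K : Set V))) (fun K : Finset V => ∑ v ∈ K, w v) ⟨∅, by simp⟩
  simp only [mem_filter, mem_powerset, subset_univ, true_and] at hK hmax
  refine ⟨K, hK, ?_⟩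
  by_contra hlt
  push Not at hlt
  set n : ℝ := (Fintype.card V : ℝ) with hn
  set E : ℝ := ∑ v, w v - D * ∑ v ∈ K, w v with hE
  have hE0 : 0 < E := by rw [hE]; linarith
  obtain ⟨N, hN⟩ := exists_nat_gt (D * n / E)
  have hN' : D * n < N * E := by rwa [div_lt_iff₀ hE0] at hN
  have hb := H (fun v => ⌊(N : ℝ) * w v⌋₊ + 1) (fun v => Nat.succ_pos _)
  obtain ⟨K', hK', hKb⟩ := C4W.blow_cliqueNum G (fun v => ⌊(N : ℝ) * w v⌋₊ + 1)
  have hlow : (N : ℝ) * ∑ v, w v ≤ ∑ v, ((⌊(N : ℝ) * w v⌋₊ + 1 : ℕ) : ℝ) := by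
    rw [mul_sum]
    refine sum_le_sum fun v _ => ?_
    push_cast
    exact (Nat.lt_floor_add_one _).le
  have hKb' : ((C4W.blow G (fun v => ⌊(N : ℝ) * w v⌋₊ + 1)).cliqueNum : ℝ) ≤
      ∑ v ∈ K', ((⌊(N : ℝ) * w v⌋₊ + 1 : ℕ) : ℝ) := by exact_mod_cast hKb
  have hup : ∑ v ∈ K', ((⌊(N : ℝ) * w v⌋₊ + 1 : ℕ) : ℝ) ≤ (N : ℝ) * (∑ v ∈ K, w v) + n := by
    calc ∑ v ∈ K', ((⌊(N : ℝ) * w v⌋₊ + 1 : ℕ) : ℝ) ≤ ∑ v ∈ K', ((N : ℝ) * w v + 1) := by
          refine sum_le_sum fun v _ => ?_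
          push_cast
          have := Nat.floor_le (mul_nonneg (Nat.cast_nonneg N) (hw v))
          linarith
      _ = (N : ℝ) * (∑ v ∈ K', w v) + #K' := by
          rw [sum_add_distrib, ← mul_sum]; simp
      _ ≤ (N : ℝ) * (∑ v ∈ K, w v) + n := by
          have h1 := hmax K' hK'
          have h2 : (#K' : ℝ) ≤ n := by
            rw [hn]; exact_mod_cast card_le_univ K'
          have h3 : (N : ℝ) * (∑ v ∈ K', w v) ≤ (N : ℝ) * (∑ v ∈ K, w v) :=
            mul_le_mul_of_nonneg_left h1 (Nat.cast_nonneg N)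
          linarith
  have h1 : (N : ℝ) * ∑ v, w v ≤ D * ((N : ℝ) * (∑ v ∈ K, w v) + n) :=
    hlow.trans (hb.trans (mul_le_mul_of_nonneg_left (hKb'.trans hup) hD))
  have h2 : (N : ℝ) * E = (N : ℝ) * ∑ v, w v - D * ((N : ℝ) * (∑ v ∈ K, w v)) := by
    rw [hE]; ring
  linarith

theorem cov_of_unit {b : ℝ} (h : UnitExp b) : CovExp b := by
  classical
  obtain ⟨C, hC, h⟩ := h
  refine ⟨C, ?_⟩
  intro V _ _ G hG
  rcases isEmpty_or_nonempty V with hV | ⟨⟨v⟩⟩
  · refine ⟨∅, fun _ => 0, by simp, fun v => (hV.false v).elim, ?_⟩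
    rw [sum_empty]
    positivity
  have hα : (1 : ℝ) ≤ G.indepNum := by exact_mod_cast indepNum_pos G v
  have hα0 : (0 : ℝ) < G.indepNum := by linarith
  refine C4W.frac_cover G (ρ := C * (G.indepNum : ℝ) ^ b) (by positivity) ?_
  intro w hw
  refine weight_gen G (by positivity) ?_ w hw
  intro m hm
  have h1 := h (Σ v, Fin (m v)) (C4W.blow G m) (C4W.blow_free hG m)
  rw [C4W.blow_indepNum G m hm] at h1
  have h2 : (Fintype.card (Σ v, Fin (m v)) : ℝ) = ∑ v, (m v : ℝ) := by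
    rw [Fintype.card_sigma]; simp
  rw [h2] at h1
  exact h1

theorem hom_of_cov {b e : ℝ} (hb : 0 < b) (h : CovExp b) (he : 0 < e) (heb : e < 1 / (1 + b)) :
    HomExp e := by
  classical
  obtain ⟨C, h⟩ := h
  have h1b : 0 < 1 + b := by linarith
  have hδ : 0 < 1 - e * (1 + b) := by
    rw [lt_div_iff₀ h1b] at heb
    linarith
  have T : Tendsto (fun n : ℕ => (n : ℝ)) atTop atTop := tendsto_natCast_atTop_atTop
  have E1 : ∀ᶠ n : ℕ in atTop, 1 ≤ n := eventually_ge_atTop _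
  have E2 : ∀ᶠ n : ℕ in atTop, |C| + 1 < (n : ℝ) ^ (1 - e * (1 + b)) :=
    ((tendsto_rpow_atTop hδ).comp T).eventually_gt_atTop _
  obtain ⟨n0, hn0⟩ := eventually_atTop.1 (E1.and E2)
  refine ⟨n0, fun V _ G hV hG => ?_⟩
  by_contra hlt
  push Not at hlt
  obtain ⟨hE1, hE2⟩ := hn0 _ hV
  obtain ⟨F, y, hF, hcov, hsum⟩ := h V G hG
  have hα : (G.indepNum : ℝ) < (Fintype.card V : ℝ) ^ e := (le_max_left _ _).trans_lt hlt
  have hω : (G.cliqueNum : ℝ) < (Fintype.card V : ℝ) ^ e := (le_max_right _ _).trans_lt hlt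
  have hcount : (Fintype.card V : ℝ) ≤ G.cliqueNum * ∑ K ∈ F, y K := by
    calc (Fintype.card V : ℝ) = ∑ _v : V, (1 : ℝ) := by simp
      _ ≤ ∑ v : V, ∑ K ∈ F with v ∈ K, y K := sum_le_sum fun v _ => hcov v
      _ = ∑ v : V, ∑ K ∈ F, (if v ∈ K then y K else 0) := by
          refine sum_congr rfl fun v _ => ?_
          rw [sum_filter]
      _ = ∑ K ∈ F, ∑ v : V, (if v ∈ K then y K else 0) := sum_comm
      _ = ∑ K ∈ F, #K * y K := by
          refine sum_congr rfl fun K _ => ?_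
          rw [← sum_filter, filter_mem_eq_inter, univ_inter, sum_const, nsmul_eq_mul]
      _ ≤ ∑ K ∈ F, G.cliqueNum * y K := by
          refine sum_le_sum fun K hK => mul_le_mul_of_nonneg_right ?_ (hF K hK).2
          exact_mod_cast (hF K hK).1.card_le_cliqueNum
      _ = G.cliqueNum * ∑ K ∈ F, y K := by rw [mul_sum]
  set n : ℝ := (Fintype.card V : ℝ) with hn
  have hn1 : 1 ≤ n := by rw [hn]; exact_mod_cast hE1
  have hn0' : 0 < n := by linarith
  have hω0 : (0 : ℝ) ≤ G.cliqueNum := Nat.cast_nonneg _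
  have hαb0 : 0 ≤ (G.indepNum : ℝ) ^ b := by positivity
  have h1 : ∑ K ∈ F, y K ≤ (|C| + 1) * (n ^ e) ^ b := by
    calc ∑ K ∈ F, y K ≤ C * (G.indepNum : ℝ) ^ b := hsum
      _ ≤ (|C| + 1) * (G.indepNum : ℝ) ^ b := by
          refine mul_le_mul_of_nonneg_right ?_ hαb0
          linarith [le_abs_self C]
      _ ≤ (|C| + 1) * (n ^ e) ^ b := by
          refine mul_le_mul_of_nonneg_left ?_ (by positivity)
          exact Real.rpow_le_rpow (Nat.cast_nonneg _) hα.le hb.le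
  have h2 : n ≤ n ^ e * ((|C| + 1) * (n ^ e) ^ b) := by
    refine hcount.trans ?_
    refine (mul_le_mul_of_nonneg_left h1 hω0).trans ?_
    exact mul_le_mul_of_nonneg_right hω.le (by positivity)
  have h3 : n ^ e * ((|C| + 1) * (n ^ e) ^ b) = (|C| + 1) * n ^ (e * (1 + b)) := by
    rw [← Real.rpow_mul hn0'.le, show e * (1 + b) = e + e * b by ring, Real.rpow_add hn0']
    ring
  have h4 : n = n ^ (1 - e * (1 + b)) * n ^ (e * (1 + b)) := by
    rw [← Real.rpow_add hn0', show 1 - e * (1 + b) + e * (1 + b) = (1 : ℝ) by ring, Real.rpow_one]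
  have h5 : 0 < n ^ (e * (1 + b)) := by positivity
  have h6 : n ^ (1 - e * (1 + b)) * n ^ (e * (1 + b)) ≤ (|C| + 1) * n ^ (e * (1 + b)) := by
    rw [← h4, ← h3]
    exact h2
  have h7 := le_of_mul_le_mul_right h6 h5
  linarith

/-- the growth exponent of the fractional clique cover number is `1 / γ` -/
theorem isGLB_cov : IsGLB {b : ℝ | 0 < b ∧ CovExp b} (1 / sSup {g : ℝ | 0 < g ∧ BddExp g}) := by
  have hsup := isLUB_hom
  have hexp := exponent_eq
  have hhalf := half_le_sup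
  set c := sSup {g : ℝ | 0 < g ∧ BddExp g} with hc
  have hc0 : 0 < c := by linarith
  constructor
  · rintro b ⟨hb0, hb⟩
    by_contra hcon
    push Not at hcon
    rw [lt_div_iff₀ hc0] at hcon
    have h1 : c / (1 + c) < 1 / (1 + b) := by
      rw [div_lt_div_iff₀ (by linarith) (by linarith)]
      nlinarith
    obtain ⟨e, he1, he2⟩ := exists_between h1
    have he0 : 0 < e := lt_trans (by positivity) he1
    have h2 := hsup.1 ⟨he0, hom_of_cov hb0 hb he0 he2⟩
    rw [hexp] at h2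
    linarith
  · intro l hl
    by_contra hcon
    push Not at hcon
    obtain ⟨b, hb1, hb2⟩ := exists_between hcon
    have hb0 : 0 < b := lt_trans (by positivity) hb1
    have h1 : 1 / b < c := by
      rw [div_lt_iff₀ hb0]
      rw [div_lt_iff₀ hc0] at hb1
      linarith
    have hne : {g : ℝ | 0 < g ∧ BddExp g}.Nonempty := ⟨1 / 2, by norm_num, bdd_half⟩
    obtain ⟨g, hg, hg2⟩ := exists_lt_of_lt_csSup hne h1
    have h2 : 1 / g < b := by
      rw [div_lt_iff₀ hg.1]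
      rw [div_lt_iff₀ hb0] at hg2
      linarith
    have h3 := hl ⟨hb0, cov_of_unit (unit_of_bdd hg.1 hg.2 h2)⟩
    linarith

end Pool.Agent.C4F
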