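import Mathlib

/-!
# Halving a family of sets
-/

namespace Pool.Agent.C4F

open Finset

lemma sum_exp_le {V : Type*} [Fintype V] [DecidableEq V] (K : Finset V) (t : ℝ) :
    ∑ S ∈ (univ : Finset V).powerset, Real.exp (t * (2 * #(K ∩ S) - #K)) ≤
      2 ^ Fintype.card V * Real.exp (t ^ 2 / 2) ^ #K := by
  set f : V → ℝ := fun v => if v ∈ K then Real.exp t else 1 with hf
  set g : V → ℝ := fun v => if v ∈ K then Real.exp (-t) else 1 with hg
  have h1 : ∀ S ∈ (univ : Finset V).powerset, Real.exp (t * (2 * #(K ∩ S) - #K)) =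
      (∏ v ∈ S, f v) * ∏ v ∈ univ \ S, g v := by
    intro S _
    have e1 : ∏ v ∈ S, f v = Real.exp t ^ #(K ∩ S) := by
      rw [hf, prod_ite_mem, prod_const, inter_comm]
    have e2 : ∏ v ∈ univ \ S, g v = Real.exp (-t) ^ #(K \ S) := by
      rw [hg, prod_ite_mem, prod_const]
      congr 2
      ext a
      simp only [mem_inter, mem_sdiff, mem_univ, true_and]
      tauto
    rw [e1, e2, ← Real.exp_nat_mul, ← Real.exp_nat_mul, ← Real.exp_add]
    have e3 : (#(K \ S) : ℝ) = #K - #(K ∩ S) := by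
      have := card_sdiff_add_card_inter K S
      have h2 : ((#(K \ S) + #(K ∩ S) : ℕ) : ℝ) = #K := by exact_mod_cast this
      push_cast at h2
      linarith
    rw [e3]
    congr 1
    ring
  rw [sum_congr rfl h1, ← prod_add]
  have h2 : ∀ v ∈ (univ : Finset V), f v + g v ≤ 2 * (if v ∈ K then Real.exp (t ^ 2 / 2) else 1) := by
    intro v _
    simp only [hf, hg]
    split_ifs
    · have := Real.cosh_le_exp_half_sq t
      rw [Real.cosh_eq] at this
      linarith
    · norm_num
  have h3 : ∀ v ∈ (univ : Finset V), 0 ≤ f v + g v := by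
    intro v _
    simp only [hf, hg]
    split_ifs
    · positivity
    · norm_num
  refine (prod_le_prod h3 h2).trans (le_of_eq ?_)
  rw [prod_mul_distrib, prod_const, card_univ, prod_ite_mem, univ_inter, prod_const]

theorem exists_half {V : Type*} [Fintype V] [DecidableEq V] (F : Finset (Finset V)) (w : ℕ)
    (hw : ∀ K ∈ F, K.card ≤ w) (t : ℝ) (ht : 0 < t) :
    ∃ S : Finset V, Fintype.card V ≤ 2 * S.card ∧
      ∀ K ∈ F, (2 * ((K ∩ S).card : ℝ)) ≤ K.card + (Real.log (2 * F.card) / t + t * w / 2) := by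
  have hK : ∀ (s : ℝ), s ^ 2 = t ^ 2 → ∀ K ∈ F,
      ∑ S ∈ (univ : Finset V).powerset, Real.exp (s * (2 * #(K ∩ S) - #K)) ≤
        2 ^ Fintype.card V * Real.exp (t ^ 2 * w / 2) := by
    intro s hs K hKF
    refine (sum_exp_le K s).trans ?_
    rw [← Real.exp_nat_mul, hs]
    refine mul_le_mul_of_nonneg_left (Real.exp_le_exp.2 ?_) (by positivity)
    have : (#K : ℝ) ≤ w := by exact_mod_cast hw K hKF
    nlinarith [sq_nonneg t]
  obtain ⟨S, hS, hle⟩ : ∃ S ∈ (univ : Finset V).powerset,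
      ∑ K ∈ F, (Real.exp (t * (2 * #(K ∩ S) - #K)) + Real.exp (-t * (2 * #(K ∩ S) - #K))) ≤
        2 * #F * Real.exp (t ^ 2 * w / 2) := by
    apply exists_le_of_sum_le ⟨∅, by simp⟩
    rw [sum_comm]
    calc ∑ K ∈ F, ∑ S ∈ (univ : Finset V).powerset,
          (Real.exp (t * (2 * #(K ∩ S) - #K)) + Real.exp (-t * (2 * #(K ∩ S) - #K)))
        ≤ ∑ K ∈ F, 2 * (2 ^ Fintype.card V * Real.exp (t ^ 2 * w / 2)) := by
          refine sum_le_sum fun K hKF => ?_
          rw [sum_add_distrib]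
          have h1 := hK t rfl K hKF
          have h2 := hK (-t) (by ring) K hKF
          linarith
      _ = ∑ S ∈ (univ : Finset V).powerset, 2 * #F * Real.exp (t ^ 2 * w / 2) := by
          rw [sum_const, sum_const, card_powerset, card_univ, nsmul_eq_mul, nsmul_eq_mul]
          push_cast
          ring
  have hpt : ∀ K ∈ F, Real.exp (t * (2 * #(K ∩ S) - #K)) ≤ 2 * #F * Real.exp (t ^ 2 * w / 2) ∧
      Real.exp (-t * (2 * #(K ∩ S) - #K)) ≤ 2 * #F * Real.exp (t ^ 2 * w / 2) := by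
    intro K hKF
    have h1 := (single_le_sum (f := fun K => Real.exp (t * (2 * (#(K ∩ S) : ℝ) - #K)) +
      Real.exp (-t * (2 * #(K ∩ S) - #K))) (fun K _ => by positivity) hKF).trans hle
    have h2 := Real.exp_pos (t * (2 * #(K ∩ S) - #K))
    have h3 := Real.exp_pos (-t * (2 * #(K ∩ S) - #K))
    constructor <;> linarith
  have hlog : ∀ K ∈ F, ∀ z : ℝ, Real.exp (t * z) ≤ 2 * #F * Real.exp (t ^ 2 * w / 2) →
      z ≤ Real.log (2 * #F) / t + t * w / 2 := by
    intro K hKF z hz
    have hF : (0 : ℝ) < #F := by exact_mod_cast card_pos.2 ⟨K, hKF⟩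
    have h1 : t * z ≤ Real.log (2 * #F * Real.exp (t ^ 2 * w / 2)) :=
      (Real.le_log_iff_exp_le (by positivity)).2 hz
    rw [Real.log_mul (by positivity) (by positivity), Real.log_exp] at h1
    have h2 : t * (Real.log (2 * #F) / t + t * w / 2) = Real.log (2 * #F) + t ^ 2 * w / 2 := by
      field_simp
    rw [← h2] at h1
    exact le_of_mul_le_mul_left h1 ht
  by_cases hc : Fintype.card V ≤ 2 * #S
  · refine ⟨S, hc, fun K hKF => ?_⟩
    have := hlog K hKF _ (hpt K hKF).1
    linarith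
  · push Not at hc
    refine ⟨Sᶜ, ?_, fun K hKF => ?_⟩
    · rw [card_compl]
      omega
    · have h1 := hlog K hKF (-(2 * #(K ∩ S) - #K)) (by
        have := (hpt K hKF).2
        rwa [show t * -(2 * (#(K ∩ S) : ℝ) - #K) = -t * (2 * #(K ∩ S) - #K) by ring])
      have h2 : (#(K ∩ Sᶜ) : ℝ) = #K - #(K ∩ S) := by
        have h3 := card_sdiff_add_card_inter K S
        have h4 : K \ S = K ∩ Sᶜ := by
          ext a
          simp only [mem_inter, mem_sdiff, mem_compl]
        rw [h4] at h3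
        have h5 : ((#(K ∩ Sᶜ) + #(K ∩ S) : ℕ) : ℝ) = #K := by exact_mod_cast h3
        push_cast at h5
        linarith
      rw [h2]
      linarith

end Pool.Agent.C4F
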