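import Pool.Agent.C4B.Steps
import Pool.Agent.C4F.Half
import Pool.Agent.C4F.Family

/-!
# Scaling down the clique number of a graph without induced 4-cycle
-/

set_option autoImplicit false
set_option linter.unusedSectionVars false

open Finset

namespace Pool.Agent.C4F

open Pool.Agent.C4D Pool.Agent.C4B

/-- Wagon's bound, in a weak form -/
lemma wagon_card {V : Type*} [Fintype V] (G : SimpleGraph V)
    (h : IsEmpty (SimpleGraph.cycleGraph 4 ↪g G)) :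
    Fintype.card V ≤ G.indepNum ^ 2 * G.cliqueNum := by
  classical
  have hG := noC4_of h
  have hInd : ∀ K : Finset V, Ind G K → K.card ≤ G.indepNum := by
    intro K hK
    apply SimpleGraph.IsIndepSet.card_le_indepNum
    intro x hx y hy _
    exact hK x hx y hy
  have hCl : ClLe G G.cliqueNum := fun K hK => SimpleGraph.IsClique.card_le_cliqueNum (tc := hK)
  obtain ⟨I, hIm, hImax⟩ := Finset.exists_max_image (fam G (Finset.univ : Finset V)) Finset.card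
    ⟨∅, mem_fam.2 ⟨Finset.empty_subset _, Ind_empty⟩⟩
  obtain ⟨hIB, hI⟩ := mem_fam.1 hIm
  have := wagon hG hCl Finset.univ hIB hI (fun K hK hK' => hImax K (mem_fam.2 ⟨hK, hK'⟩))
  rw [Finset.card_univ] at this
  rw [sq]
  exact this.trans (Nat.mul_le_mul_right _ (Nat.mul_le_mul (hInd I hI) (hInd I hI)))

/-- the numerical condition -/
lemma log_bound {s : ℝ} (hs : 12 ≤ s) {n : ℝ} (hn0 : 0 ≤ n) (hn : n ≤ s ^ 10) :
    Real.log (2 * (n ^ 2 + 1)) ≤ s ^ 4 / 2 := by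
  have hs0 : 0 < s := by linarith
  have h1 : (1 : ℝ) ≤ s ^ 20 := one_le_pow₀ (by linarith)
  have h2 : 2 * (n ^ 2 + 1) ≤ 4 * s ^ 20 := by
    have : n ^ 2 ≤ (s ^ 10) ^ 2 := pow_le_pow_left₀ hn0 hn 2
    have e : (s ^ 10) ^ 2 = s ^ 20 := by ring
    rw [e] at this
    linarith
  have h3 : Real.log (2 * (n ^ 2 + 1)) ≤ Real.log (4 * s ^ 20) :=
    Real.log_le_log (by positivity) h2
  have h3' : Real.log (4 * s ^ 20) = Real.log 4 + 20 * Real.log s := by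
    rw [Real.log_mul (by norm_num) (by positivity), Real.log_pow]
    norm_num
  rw [h3'] at h3
  have h4 : Real.log 4 ≤ 4 := (Real.log_le_sub_one_of_pos (by norm_num)).trans (by norm_num)
  have h5 : Real.log s ≤ s := (Real.log_le_sub_one_of_pos hs0).trans (by linarith)
  have h6 : 12 ^ 3 * s ≤ s ^ 4 := by
    have : (12 : ℝ) ^ 3 ≤ s ^ 3 := pow_le_pow_left₀ (by norm_num) hs 3
    calc 12 ^ 3 * s ≤ s ^ 3 * s := mul_le_mul_of_nonneg_right this hs0.le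
      _ = s ^ 4 := by ring
  have h7 : (12 : ℝ) ^ 3 * s = 1728 * s := by norm_num
  rw [h7] at h6
  linarith

/-- one halving step: from clique number at most `s ^ 8` to clique number at most `(s ^ 8 + s ^ 6) / 2` -/
lemma half_step {V : Type} [Fintype V] (G : SimpleGraph V)
    (h : IsEmpty (SimpleGraph.cycleGraph 4 ↪g G)) {m : ℕ} (hm : G.indepNum ≤ m) {s : ℝ} (hs : 12 ≤ s)
    (hms : (m : ℝ) ≤ s) (hω : (G.cliqueNum : ℝ) ≤ s ^ 8) :
    ∃ S : Finset V, Fintype.card V ≤ 2 * #S ∧ ((sub G S).cliqueNum : ℝ) ≤ (s ^ 8 + s ^ 6) / 2 := by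
  classical
  have hs0 : 0 < s := by linarith
  obtain ⟨F, hF1, hF2, hF3⟩ := exists_family G (noC4_of h)
  obtain ⟨S, hS1, hS2⟩ := exists_half F G.cliqueNum (fun K hK => (hF2 K hK).card_le_cliqueNum)
    ((s ^ 2)⁻¹) (by positivity)
  refine ⟨S, hS1, ?_⟩
  have hn : (Fintype.card V : ℝ) ≤ s ^ 10 := by
    have h1 : (Fintype.card V : ℝ) ≤ (G.indepNum : ℝ) ^ 2 * G.cliqueNum := by
      exact_mod_cast wagon_card G h
    have h2 : (G.indepNum : ℝ) ≤ s := le_trans (by exact_mod_cast hm) hms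
    calc (Fintype.card V : ℝ) ≤ (G.indepNum : ℝ) ^ 2 * G.cliqueNum := h1
      _ ≤ s ^ 2 * s ^ 8 := by gcongr
      _ = s ^ 10 := by ring
  have hFc : (#F : ℝ) ≤ (Fintype.card V : ℝ) ^ 2 + 1 := by exact_mod_cast hF1
  obtain ⟨Q, hQ⟩ := (sub G S).exists_isNClique_cliqueNum
  set T : Finset V := Q.map (Function.Embedding.subtype (· ∈ S)) with hT
  have hTS : T ⊆ S := by
    intro x hx
    rw [hT, Finset.mem_map] at hx
    obtain ⟨y, _, rfl⟩ := hx
    exact y.2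
  have hTc : G.IsClique (T : Set V) := by
    intro a ha b hb hab
    simp only [hT, coe_map, Set.mem_image, mem_coe] at ha hb
    obtain ⟨x, hx, rfl⟩ := ha
    obtain ⟨y, hy, rfl⟩ := hb
    have hne : x ≠ y := fun e => hab (by rw [e])
    exact hQ.isClique hx hy hne
  obtain ⟨K, hK, hTK⟩ := hF3 T hTc
  have hcard : ((sub G S).cliqueNum : ℝ) ≤ #(K ∩ S) := by
    rw [← hQ.card_eq, ← card_map (Function.Embedding.subtype (· ∈ S))]
    exact_mod_cast card_le_card (subset_inter hTK hTS)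
  have hFpos : (1 : ℝ) ≤ #F := by
    exact_mod_cast card_pos.2 ⟨K, hK⟩
  have hlog : Real.log (2 * #F) ≤ s ^ 4 / 2 := by
    refine le_trans (Real.log_le_log (by linarith) ?_) (log_bound hs (Nat.cast_nonneg _) hn)
    linarith
  have h1 := hS2 K hK
  have hKw : (#K : ℝ) ≤ s ^ 8 := by
    refine le_trans ?_ hω
    exact_mod_cast (hF2 K hK).card_le_cliqueNum
  have h2 : Real.log (2 * #F) / (s ^ 2)⁻¹ ≤ s ^ 6 / 2 := by
    rw [div_inv_eq_mul]
    calc Real.log (2 * #F) * s ^ 2 ≤ (s ^ 4 / 2) * s ^ 2 := by gcongr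
      _ = s ^ 6 / 2 := by ring
  have h3 : (s ^ 2)⁻¹ * G.cliqueNum / 2 ≤ s ^ 6 / 2 := by
    have : (s ^ 2)⁻¹ * G.cliqueNum ≤ s ^ 6 := by
      rw [inv_mul_le_iff₀ (by positivity)]
      calc (G.cliqueNum : ℝ) ≤ s ^ 8 := hω
        _ = s ^ 2 * s ^ 6 := by ring
    linarith
  linarith

/-- the class of graphs in question -/
def Cls (m : ℕ) (x B : ℝ) : Prop := ∀ (V : Type) [Fintype V] (G : SimpleGraph V),
  IsEmpty (SimpleGraph.cycleGraph 4 ↪g G) → G.indepNum ≤ m → (G.cliqueNum : ℝ) ≤ x →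
    (Fintype.card V : ℝ) ≤ B

lemma eighth_root {y : ℝ} (hy : 0 ≤ y) : ∃ s : ℝ, 0 ≤ s ∧ s ^ 8 = y := by
  refine ⟨Real.sqrt (Real.sqrt (Real.sqrt y)), Real.sqrt_nonneg _, ?_⟩
  have h1 := Real.sq_sqrt hy
  have h2 := Real.sq_sqrt (Real.sqrt_nonneg y)
  have h3 := Real.sq_sqrt (Real.sqrt_nonneg (Real.sqrt y))
  calc Real.sqrt (Real.sqrt (Real.sqrt y)) ^ 8 = ((Real.sqrt (Real.sqrt (Real.sqrt y)) ^ 2) ^ 2) ^ 2 := by ring
    _ = y := by rw [h3, h2, h1]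

lemma step_ineq {s s' : ℝ} (hs : 12 ≤ s) (hs'0 : 0 ≤ s') (hs' : s' ^ 8 = (s ^ 8 + s ^ 6) / 2) :
    2 * (s' ^ 8 - s' ^ 7) ≤ s ^ 8 - s ^ 7 := by
  have hs0 : 0 < s := by linarith
  have h1 : (0.917 * s) ^ 8 ≤ s' ^ 8 := by
    rw [hs', mul_pow]
    have h2 : (0.917 : ℝ) ^ 8 ≤ 1 / 2 := by norm_num
    have h3 : (0 : ℝ) ≤ s ^ 8 := by positivity
    have h4 : (0 : ℝ) ≤ s ^ 6 := by positivity
    nlinarith
  have h5 : 0.917 * s ≤ s' := le_of_pow_le_pow_left₀ (by norm_num) hs'0 h1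
  have h6 : (0.917 * s) ^ 7 ≤ s' ^ 7 := pow_le_pow_left₀ (by positivity) h5 7
  rw [mul_pow] at h6
  have h7 : (1.09 : ℝ) ≤ 2 * 0.917 ^ 7 := by norm_num
  have h8 : (0 : ℝ) < s ^ 7 := by positivity
  have h9 : 12 * s ^ 6 ≤ s ^ 7 := by
    calc 12 * s ^ 6 ≤ s * s ^ 6 := mul_le_mul_of_nonneg_right hs (by positivity)
      _ = s ^ 7 := by ring
  have h10 : 1.09 * s ^ 7 ≤ 2 * s' ^ 7 := by nlinarith
  rw [hs']
  nlinarith

/-- the recursion -/
lemma recursion {m : ℕ} {T M : ℝ} (hT : 0 ≤ T) (hM1 : (m : ℝ) ^ 8 ≤ M) (hM2 : (12 : ℝ) ^ 8 ≤ M)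
    (hyp : ∀ x : ℝ, x ≤ 2 * M → 0 ≤ x → Cls m x (T * x)) (j : ℕ) :
    ∀ s : ℝ, 0 ≤ s → M ≤ s ^ 8 → s ^ 8 ≤ 2 * M * (4 / 3) ^ j → Cls m (s ^ 8) (2 * T * (s ^ 8 - s ^ 7)) := by
  induction j with
  | zero =>
    intro s hs0 hs1 hs2 V _ G hG hα hω
    rw [pow_zero, mul_one] at hs2
    have h1 := hyp (s ^ 8) hs2 (by positivity) V G hG hα hω
    have h12 : 12 ≤ s := le_of_pow_le_pow_left₀ (n := 8) (by norm_num) hs0 (hM2.trans hs1)
    have h2 : 2 * s ^ 7 ≤ s ^ 8 := by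
      calc 2 * s ^ 7 ≤ s * s ^ 7 := mul_le_mul_of_nonneg_right (by linarith) (by positivity)
        _ = s ^ 8 := by ring
    have h3 : T * s ^ 8 ≤ T * (2 * (s ^ 8 - s ^ 7)) := mul_le_mul_of_nonneg_left (by linarith) hT
    calc (Fintype.card V : ℝ) ≤ T * s ^ 8 := h1
      _ ≤ T * (2 * (s ^ 8 - s ^ 7)) := h3
      _ = 2 * T * (s ^ 8 - s ^ 7) := by ring
  | succ j ih =>
    intro s hs0 hs1 hs2
    by_cases hcase : s ^ 8 ≤ 2 * M
    · intro V _ G hG hα hω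
      have h1 := hyp (s ^ 8) hcase (by positivity) V G hG hα hω
      have h12 : 12 ≤ s := le_of_pow_le_pow_left₀ (n := 8) (by norm_num) hs0 (hM2.trans hs1)
      have h2 : 2 * s ^ 7 ≤ s ^ 8 := by
        calc 2 * s ^ 7 ≤ s * s ^ 7 := mul_le_mul_of_nonneg_right (by linarith) (by positivity)
          _ = s ^ 8 := by ring
      have h3 : T * s ^ 8 ≤ T * (2 * (s ^ 8 - s ^ 7)) := mul_le_mul_of_nonneg_left (by linarith) hT
      calc (Fintype.card V : ℝ) ≤ T * s ^ 8 := h1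
        _ ≤ T * (2 * (s ^ 8 - s ^ 7)) := h3
        _ = 2 * T * (s ^ 8 - s ^ 7) := by ring
    · push Not at hcase
      intro V _ G hG hα hω
      have h12 : 12 ≤ s := le_of_pow_le_pow_left₀ (n := 8) (by norm_num) hs0 (hM2.trans hs1)
      have hms : (m : ℝ) ≤ s := le_of_pow_le_pow_left₀ (n := 8) (by norm_num) hs0 (hM1.trans hs1)
      have hs6 : (0 : ℝ) ≤ s ^ 6 := by positivity
      have hs8 : (0 : ℝ) ≤ s ^ 8 := by positivity
      obtain ⟨S, hS1, hS2⟩ := half_step G hG hα h12 hms hω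
      obtain ⟨s', hs'0, hs'⟩ := eighth_root (show 0 ≤ (s ^ 8 + s ^ 6) / 2 by linarith)
      have hs68 : 2 * s ^ 6 ≤ s ^ 8 := by
        calc 2 * s ^ 6 ≤ s ^ 2 * s ^ 6 := mul_le_mul_of_nonneg_right (by nlinarith) hs6
          _ = s ^ 8 := by ring
      have h34 : s' ^ 8 ≤ 3 / 4 * s ^ 8 := by rw [hs']; linarith
      have hM' : M ≤ s' ^ 8 := by rw [hs']; linarith
      have hup : s' ^ 8 ≤ 2 * M * (4 / 3) ^ j := by
        have e : 2 * M * (4 / 3 : ℝ) ^ (j + 1) = 4 / 3 * (2 * M * (4 / 3) ^ j) := by ring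
        rw [e] at hs2
        linarith
      have h1 := ih s' hs'0 hM' hup {x // x ∈ S} (sub G S) (sub_free G hG S)
        ((sub_indepNum G S).trans hα) (by rw [hs']; exact hS2)
      rw [Fintype.card_coe] at h1
      have h2 := step_ineq h12 hs'0 hs'
      have h3 : (Fintype.card V : ℝ) ≤ 2 * #S := by exact_mod_cast hS1
      have h4 : T * (2 * (s' ^ 8 - s' ^ 7)) ≤ T * (s ^ 8 - s ^ 7) := mul_le_mul_of_nonneg_left h2 hT
      calc (Fintype.card V : ℝ) ≤ 2 * #S := h3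
        _ ≤ 2 * (2 * T * (s' ^ 8 - s' ^ 7)) := by linarith
        _ = 2 * (T * (2 * (s' ^ 8 - s' ^ 7))) := by ring
        _ ≤ 2 * (T * (s ^ 8 - s ^ 7)) := by linarith
        _ = 2 * T * (s ^ 8 - s ^ 7) := by ring

/-- If `n ≤ T ω` for all graphs with `α ≤ m` and clique number at most `2 M`, where
`M = (m + 12) ^ 8`, then `n ≤ 2 T ω` for all graphs with `α ≤ m`. -/
theorem scale {m : ℕ} {T : ℝ} (hT : 0 ≤ T)
    (hyp : ∀ (V : Type) [Fintype V] (G : SimpleGraph V), IsEmpty (SimpleGraph.cycleGraph 4 ↪g G) →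
      G.indepNum ≤ m → (G.cliqueNum : ℝ) ≤ 2 * ((m : ℝ) + 12) ^ 8 →
        (Fintype.card V : ℝ) ≤ T * G.cliqueNum)
    (V : Type) [Fintype V] (G : SimpleGraph V) (hG : IsEmpty (SimpleGraph.cycleGraph 4 ↪g G))
    (hα : G.indepNum ≤ m) : (Fintype.card V : ℝ) ≤ 2 * T * G.cliqueNum := by
  have hm0 : (0 : ℝ) ≤ m := Nat.cast_nonneg m
  set M : ℝ := ((m : ℝ) + 12) ^ 8 with hM
  have hM1 : (m : ℝ) ^ 8 ≤ M := pow_le_pow_left₀ hm0 (by linarith) 8
  have hM2 : (12 : ℝ) ^ 8 ≤ M := pow_le_pow_left₀ (by norm_num) (by linarith) 8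
  have hω0 : (0 : ℝ) ≤ G.cliqueNum := Nat.cast_nonneg _
  by_cases hcase : (G.cliqueNum : ℝ) ≤ 2 * M
  · have h1 := hyp V G hG hα hcase
    nlinarith [mul_nonneg hT hω0]
  · push Not at hcase
    have hMpos : 0 < M := by positivity
    obtain ⟨s, hs0, hs⟩ := eighth_root hω0
    obtain ⟨j, hj⟩ := pow_unbounded_of_one_lt ((G.cliqueNum : ℝ) / (2 * M)) (show (1 : ℝ) < 4 / 3 by norm_num)
    rw [div_lt_iff₀ (by positivity)] at hj
    have h1 := recursion hT hM1 hM2 (fun x hx hx0 V' _ G' hG' hα' hω' =>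
      (hyp V' G' hG' hα' (hω'.trans hx)).trans (mul_le_mul_of_nonneg_left hω' hT)) j s hs0
      (by rw [hs]; linarith) (by rw [hs]; linarith) V G hG hα (by rw [hs])
    rw [hs] at h1
    have hs7 : (0 : ℝ) ≤ s ^ 7 := by positivity
    nlinarith [mul_nonneg hT hs7]

end Pool.Agent.C4F
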